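import Mathlib
import Pool.Agent.X163.Pyramid

/-!
# The Newton covering number of a tall right pyramid over a cube is `2`

In every dimension `d = m + 1 ≥ 2` all sufficiently tall right pyramids over the unit `m`-cube are
covered, together with a neighbourhood, by two congruent copies: a copy shifted slightly towards
the apex covers everything except a thin slice at the base, and the base cube, suitably tilted,
fits into the interior of the pyramid. So `N*(P^d(h)) = 2 < 3 ≤ N*(C^(d-1)) + 1`.
-/

set_option autoImplicit false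

namespace Pool.Agent.Results.MP_5875c4_co.TallPyramids

open Pool.Agent.Helper2.NewtonCover (Covers E newton covers_newton)
open Pool.Agent.X163.Pyramid

theorem result : ∀ m : ℕ, 1 ≤ m → ∃ h₀ : ℝ, 0 < h₀ ∧ ∀ h : ℝ, h₀ ≤ h →
    IsLeast {n : ℕ | Covers (pyramid m h) n} 2 ∧ newton (pyramid m h) = 2 ∧
    IsLeast {n : ℕ | Covers (cube m) n} (newton (cube m)) ∧ 2 ≤ newton (cube m) ∧
    newton (pyramid m h) ≠ newton (cube m) + 1 := by
  intro m hm
  obtain ⟨h₀, h1, h2⟩ := newton_tall m
  refine ⟨h₀, h1, fun h hh => ?_⟩
  have h3 := h2 h hh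
  have hpos : 0 < h := by linarith
  have h4 := covers_newton (isBody_pyramid (m := m) hpos)
  rw [h3] at h4
  have h5 := two_le_cube hm
  refine ⟨⟨h4, fun n hn => ?_⟩, h3, ⟨covers_newton cube_body, fun n hn => Nat.sInf_le hn⟩, h5,
    by omega⟩
  have h6 : newton (pyramid m h) ≤ n := Nat.sInf_le hn
  omega

end Pool.Agent.Results.MP_5875c4_co.TallPyramids
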